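import Pool.Agent.X263.AL.Stm2
import Pool.Agent.X319.GN.NORM

/-!
# `S_NRM`: the normal form for three different fixed points in the projective line
-/

set_option autoImplicit false

namespace Pool.Agent.X319.AL

open Finset Polynomial
open Pool.Agent.W277.UH
open Pool.Agent.X328.GN (Ix nu de hm)
open Pool.Agent.X319.GN (nu_gen de_gen hm_map nu_map de_map hm_natDegree hm_C_mul)
open Pool.Agent.Results.MP_9b502d_nt.LargeCriticalHeight (Conjugate)

universe u v

noncomputable section

section

variable {K : Type u} [Field K]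

/-- the value of the homogenization -/
def Fh (D : ℕ) (F : K[X]) (s t : K) : K := ∑ i ∈ range (D + 1), F.coeff i * s ^ i * t ^ (D - i)

lemma Fh_smul (D : ℕ) (F : K[X]) (α s t : K) : Fh D F (α * s) (α * t) = α ^ D * Fh D F s t := by
  rw [Fh, Fh, Finset.mul_sum]
  refine Finset.sum_congr rfl fun i hi => ?_
  have hi' : i ≤ D := by have := Finset.mem_range.1 hi; omega
  have h1 : α ^ D = α ^ i * α ^ (D - i) := by rw [← pow_add, Nat.add_sub_cancel' hi']
  rw [h1, mul_pow, mul_pow]; ring

lemma Fh_one (D : ℕ) {F : K[X]} (hF : F.natDegree ≤ D) (x : K) : Fh D F x 1 = F.eval x := by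
  rw [eval_eq_sum_range' (p := F) (n := D + 1) (by omega), Fh]
  refine Finset.sum_congr rfl fun i _ => ?_
  rw [one_pow, mul_one]

lemma Fh_inf (D : ℕ) (F : K[X]) (s : K) : Fh D F s 0 = F.coeff D * s ^ D := by
  rw [Fh, Finset.sum_eq_single D]
  · simp
  · intro i hi hid
    have hi' : i < D := by have := Finset.mem_range.1 hi; omega
    rw [zero_pow (by omega), mul_zero]
  · intro h; simp at h

lemma hm_ev (D : ℕ) (F A B : K[X]) (v : K) :
    (hm D F A B).eval v = Fh D F (A.eval v) (B.eval v) := by
  rw [hm, Fh, eval_finsetSum]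
  refine Finset.sum_congr rfl fun i _ => ?_
  simp only [eval_mul, eval_C, eval_pow]

lemma hm_cf (D : ℕ) (F A B : K[X]) (hA : A.natDegree ≤ 1) (hB : B.natDegree ≤ 1) :
    (hm D F A B).coeff D = Fh D F (A.coeff 1) (B.coeff 1) := by
  rw [hm, Fh, finsetSum_coeff]
  refine Finset.sum_congr rfl fun i hi => ?_
  have hi' : i ≤ D := by have := Finset.mem_range.1 hi; omega
  rw [mul_assoc, coeff_C_mul, mul_assoc]
  congr 1
  have h1 := natDegree_pow_le_of_le i hA
  have h2 := natDegree_pow_le_of_le (D - i) hB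
  rw [mul_one] at h1 h2
  have h3 := coeff_pow_of_natDegree_le (m := i) hA
  have h4 := coeff_pow_of_natDegree_le (m := D - i) hB
  rw [mul_one] at h3 h4
  have h5 : (A ^ i * B ^ (D - i)).coeff (i + (D - i)) =
    (A ^ i).coeff i * (B ^ (D - i)).coeff (D - i) := coeff_mul_add_eq_of_natDegree_le h1 h2
  rw [Nat.add_sub_cancel' hi', h3, h4] at h5
  exact h5

/-- the pair of forms has no common zero -/
lemma no_zero {D : ℕ} (hD : 1 ≤ D) {P R : K[X]} (hc : IsCoprime P R)
    (hmax : max P.natDegree R.natDegree = D) (s t : K) (hst : s ≠ 0 ∨ t ≠ 0)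
    (h1 : Fh D P s t = 0) (h2 : Fh D R s t = 0) : False := by
  have hP : P.natDegree ≤ D := hmax ▸ le_max_left _ _
  have hR : R.natDegree ≤ D := hmax ▸ le_max_right _ _
  by_cases ht : t = 0
  · subst ht
    have hs : s ≠ 0 := hst.resolve_right (fun h => h rfl)
    rw [Fh_inf] at h1 h2
    have g1 := (mul_eq_zero.1 h1).resolve_right (pow_ne_zero _ hs)
    have g2 := (mul_eq_zero.1 h2).resolve_right (pow_ne_zero _ hs)
    rcases max_choice P.natDegree R.natDegree with h | h
    · rw [h] at hmax
      have hp0 : P = 0 := by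
        rw [← leadingCoeff_eq_zero, leadingCoeff, hmax, g1]
      rw [hp0, natDegree_zero] at hmax
      omega
    · rw [h] at hmax
      have hq0 : R = 0 := by
        rw [← leadingCoeff_eq_zero, leadingCoeff, hmax, g2]
      rw [hq0, natDegree_zero] at hmax
      omega
  · have h3 : ∀ F : K[X], F.natDegree ≤ D → Fh D F s t = 0 → F.eval (s / t) = 0 := by
      intro F hF h
      have h4 := Fh_smul D F t (s / t) 1
      rw [mul_div_cancel₀ _ ht, mul_one, h, Fh_one D hF] at h4
      exact (mul_eq_zero.1 h4.symm).resolve_left (pow_ne_zero _ ht)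
    obtain ⟨a, b, hab⟩ := hc
    have := congrArg (eval (s / t)) hab
    rw [eval_add, eval_mul, eval_mul, h3 P hP h1, h3 R hR h2, mul_zero, mul_zero, add_zero,
      eval_one] at this
    exact zero_ne_one this

/-- homogeneous coordinates -/
def sc : Option K → K
  | some x => x
  | none => 1

/-- homogeneous coordinates -/
def tc : Option K → K
  | some _ => 1
  | none => 0

lemma det_ne {z z' : Option K} (h : z ≠ z') : sc z * tc z' - sc z' * tc z ≠ 0 := by
  rcases z with _ | x <;> rcases z' with _ | x'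
  · exact absurd rfl h
  · simp [sc, tc]
  · simp [sc, tc]
  · simp only [sc, tc, mul_one]
    rw [sub_ne_zero]
    rintro rfl
    exact h rfl

lemma st_ne (z : Option K) : sc z ≠ 0 ∨ tc z ≠ 0 := by
  rcases z with _ | x
  · left; exact one_ne_zero
  · right; exact one_ne_zero

lemma fixpt {D : ℕ} (hD : 1 ≤ D) {P R : K[X]} (hc : IsCoprime P R)
    (hmax : max P.natDegree R.natDegree = D) {z : Option K} (hz : ratP1 P R D z = z) :
    ∃ m : K, m ≠ 0 ∧ Fh D P (sc z) (tc z) = m * sc z ∧ Fh D R (sc z) (tc z) = m * tc z := by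
  have hP : P.natDegree ≤ D := hmax ▸ le_max_left _ _
  have hR : R.natDegree ≤ D := hmax ▸ le_max_right _ _
  have hex : ∃ m : K, Fh D P (sc z) (tc z) = m * sc z ∧ Fh D R (sc z) (tc z) = m * tc z := by
    rcases z with _ | x
    · have h0 : R.coeff D = 0 := by
        by_contra h
        simp only [ratP1, if_neg h] at hz
        exact absurd hz (by simp)
      refine ⟨P.coeff D, ?_, ?_⟩
      · simp only [sc, tc]; rw [Fh_inf]; ring
      · simp only [sc, tc]; rw [Fh_inf, h0]; ring
    · have h0 : R.eval x ≠ 0 := by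
        intro h
        simp only [ratP1, if_pos h] at hz
        exact absurd hz (by simp)
      simp only [ratP1, if_neg h0, Option.some.injEq] at hz
      refine ⟨R.eval x, ?_, ?_⟩
      · simp only [sc, tc]; rw [Fh_one D hP]
        rw [div_eq_iff h0] at hz
        rw [hz]; ring
      · simp only [sc, tc]; rw [Fh_one D hR, mul_one]
  obtain ⟨m, h1, h2⟩ := hex
  refine ⟨m, ?_, h1, h2⟩
  rintro rfl
  rw [zero_mul] at h1 h2
  exact no_zero hD hc hmax _ _ (st_ne z) h1 h2

/-- composition with a Moebius map and its inverse -/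
lemma comp_inv [CharZero K] (D : ℕ) (F : K[X]) (hF : F.natDegree ≤ D) (a b c e : K)
    (hdet : a * e - b * c ≠ 0) :
    hm D (hm D F (C e * X + C (-b)) (C (-c) * X + C a)) (C a * X + C b) (C c * X + C e) =
      C ((a * e - b * c) ^ D) * F := by
  classical
  have hce : (C c * X + C e : K[X]) ≠ 0 := by
    intro h
    have h1 := congrArg (fun p : K[X] => p.coeff 1) h
    have h0 := congrArg (fun p : K[X] => p.coeff 0) h
    simp at h0 h1
    apply hdet
    rw [h0, h1]; ring
  have hfin : {v : K | (C c * X + C e : K[X]).eval v = 0}.Finite := by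
    refine Set.Finite.subset (C c * X + C e : K[X]).roots.toFinset.finite_toSet ?_
    intro v hv
    rw [Finset.mem_coe, Multiset.mem_toFinset, mem_roots hce]
    exact hv
  refine eq_of_infinite_eval_eq _ _ (Set.Infinite.mono ?_ hfin.infinite_compl)
  intro v hv
  have hv' : c * v + e ≠ 0 := by
    intro h
    apply hv
    change (C c * X + C e : K[X]).eval v = 0
    simp only [eval_add, eval_mul, eval_C, eval_X]
    exact h
  have hdegA : (C e * X + C (-b) : K[X]).natDegree ≤ 1 := natDegree_linear_le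
  have hdegB : (C (-c) * X + C a : K[X]).natDegree ≤ 1 := natDegree_linear_le
  set G := hm D F (C e * X + C (-b)) (C (-c) * X + C a) with hG
  have hGdeg : G.natDegree ≤ D := hm_natDegree D F _ _ hdegA hdegB
  change eval v _ = eval v _
  rw [hm_ev]
  simp only [eval_add, eval_mul, eval_C, eval_X, eval_pow]
  have h1 : Fh D G (a * v + b) (c * v + e) = (c * v + e) ^ D * G.eval ((a * v + b) / (c * v + e)) := by
    have h4 := Fh_smul D G (c * v + e) ((a * v + b) / (c * v + e)) 1
    rw [mul_div_cancel₀ _ hv', mul_one, Fh_one D hGdeg] at h4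
    exact h4
  rw [h1, hG, hm_ev]
  simp only [eval_add, eval_mul, eval_C, eval_X]
  have h2 : e * ((a * v + b) / (c * v + e)) + -b = (a * e - b * c) / (c * v + e) * v := by
    rw [mul_div_assoc', div_mul_eq_mul_div, eq_div_iff hv', add_mul, div_mul_cancel₀ _ hv']; ring
  have h3 : -c * ((a * v + b) / (c * v + e)) + a = (a * e - b * c) / (c * v + e) * 1 := by
    rw [mul_div_assoc', mul_one, eq_div_iff hv', add_mul, div_mul_cancel₀ _ hv']; ring
  rw [h2, h3, Fh_smul, Fh_one D hF, ← mul_assoc, ← mul_pow, mul_div_cancel₀ _ hv']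

end

theorem t_NRM : Pool.Agent.X263.AL.S_NRM.{u} := by
  intro K _ _ D hD P R hc hmax z hz hfix
  have hP : P.natDegree ≤ D := hmax ▸ le_max_left _ _
  have hR : R.natDegree ≤ D := hmax ▸ le_max_right _ _
  obtain ⟨m0, hm0, hP0, hR0⟩ := fixpt (by omega) hc hmax (hfix 0)
  obtain ⟨m1, hm1, hP1, hR1⟩ := fixpt (by omega) hc hmax (hfix 1)
  obtain ⟨m2, hm2, hP2, hR2⟩ := fixpt (by omega) hc hmax (hfix 2)
  have h01 := det_ne (fun h => absurd (hz h) (by decide) : z 0 ≠ z 1)
  have h12 := det_ne (fun h => absurd (hz h) (by decide) : z 1 ≠ z 2)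
  have h02 := det_ne (fun h => absurd (hz h) (by decide) : z 0 ≠ z 2)
  generalize sc (z 0) = s0 at *
  generalize sc (z 1) = s1 at *
  generalize sc (z 2) = s2 at *
  generalize tc (z 0) = t0 at *
  generalize tc (z 1) = t1 at *
  generalize tc (z 2) = t2 at *
  set d01 := s0 * t1 - s1 * t0 with hd01
  set d12 := s1 * t2 - s2 * t1 with hd12
  set d02 := s0 * t2 - s2 * t0 with hd02
  set a := d12 * t0 with ha
  set b := -(d12 * s0) with hb
  set c := -(d01 * t2) with hcc
  set e := d01 * s2 with he
  have hdet : a * e - b * c = -(d12 * d01 * d02) := by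
    rw [ha, hb, hcc, he, hd02]; ring
  have hdet0 : a * e - b * c ≠ 0 := by
    rw [hdet]; exact neg_ne_zero.2 (mul_ne_zero (mul_ne_zero h12 h01) h02)
  set A : K[X] := C e * X + C (-b) with hA
  set B : K[X] := C (-c) * X + C a with hB
  have hdegA : A.natDegree ≤ 1 := natDegree_linear_le
  have hdegB : B.natDegree ≤ 1 := natDegree_linear_le
  set U : K[X] := C a * hm D P A B + C b * hm D R A B with hU
  set W : K[X] := C c * hm D P A B + C e * hm D R A B with hW
  have hUdeg : U.natDegree ≤ D := (natDegree_add_le _ _).trans (max_le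
    ((natDegree_C_mul_le _ _).trans (hm_natDegree D P _ _ hdegA hdegB))
    ((natDegree_C_mul_le _ _).trans (hm_natDegree D R _ _ hdegA hdegB)))
  have hWdeg : W.natDegree ≤ D := (natDegree_add_le _ _).trans (max_le
    ((natDegree_C_mul_le _ _).trans (hm_natDegree D P _ _ hdegA hdegB))
    ((natDegree_C_mul_le _ _).trans (hm_natDegree D R _ _ hdegA hdegB)))
  -- values at `0`
  have hA0 : A.eval 0 = d12 * s0 := by simp [hA, hb]
  have hB0 : B.eval 0 = d12 * t0 := by simp [hB, ha]
  have hU0 : U.coeff 0 = 0 := by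
    rw [coeff_zero_eq_eval_zero, hU, eval_add, eval_mul, eval_mul, eval_C, eval_C, hm_ev, hm_ev,
      hA0, hB0, Fh_smul, Fh_smul, hP0, hR0, ha, hb]
    ring
  -- values at `1`
  have hA1 : A.eval 1 = d02 * s1 := by
    simp only [hA, eval_add, eval_mul, eval_C, eval_X, hb, he, hd01, hd12, hd02]; ring
  have hB1 : B.eval 1 = d02 * t1 := by
    simp only [hB, eval_add, eval_mul, eval_C, eval_X, ha, hcc, hd01, hd12, hd02]; ring
  have hone : U.eval 1 = W.eval 1 := by
    rw [hU, hW]
    simp only [eval_add, eval_mul, eval_C, hm_ev]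
    rw [hA1, hB1, Fh_smul, Fh_smul, hP1, hR1]
    have g1 : a * s1 + b * t1 = c * s1 + e * t1 := by
      rw [ha, hb, hcc, he, hd01, hd12]; ring
    linear_combination (d02 ^ D * m1) * g1
  -- leading coefficients
  have hAc : A.coeff 1 = d01 * s2 := by simp [hA, he]
  have hBc : B.coeff 1 = d01 * t2 := by simp [hB, hcc]
  have hUD : U.coeff D = -(d01 ^ D * m2 * d12 * d02) := by
    rw [hU, coeff_add, coeff_C_mul, coeff_C_mul, hm_cf D _ _ _ hdegA hdegB,
      hm_cf D _ _ _ hdegA hdegB, hAc, hBc, Fh_smul, Fh_smul, hP2, hR2, ha, hb, hd02]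
    ring
  have hWD : W.coeff D = 0 := by
    rw [hW, coeff_add, coeff_C_mul, coeff_C_mul, hm_cf D _ _ _ hdegA hdegB,
      hm_cf D _ _ _ hdegA hdegB, hAc, hBc, Fh_smul, Fh_smul, hP2, hR2, hcc, he]
    ring
  set l := U.coeff D with hl
  have hl0 : l ≠ 0 := by
    rw [hUD]
    exact neg_ne_zero.2 (mul_ne_zero (mul_ne_zero (mul_ne_zero (pow_ne_zero _ h01) hm2) h12) h02)
  let κ : Ix D → K := fun i => match i with
    | Sum.inl i => U.coeff (i.1 + 1) / l
    | Sum.inr i => W.coeff (i.1 + 1) / l
  have hnu : C l * nu D κ = U := nu_gen hD U l hl0 hUdeg hU0 rfl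
  have hde : C l * de D κ = W := de_gen hD U W l hl0 hUdeg hU0 rfl hWdeg hWD hone
  have hnu' : nu D κ = C l⁻¹ * U := by
    rw [← hnu, ← mul_assoc, ← C_mul, inv_mul_cancel₀ hl0, C_1, one_mul]
  have hde' : de D κ = C l⁻¹ * W := by
    rw [← hde, ← mul_assoc, ← C_mul, inv_mul_cancel₀ hl0, C_1, one_mul]
  refine ⟨κ, ?_, ?_⟩
  · rw [isCoprime_iff_aeval_ne_zero_of_isAlgClosed K (AlgebraicClosure K)]
    intro v
    by_contra hcon
    push Not at hcon
    obtain ⟨g1, g2⟩ := hcon
    set φ := algebraMap K (AlgebraicClosure K) with hφ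
    have hinj : Function.Injective φ := φ.injective
    have e1 : (U.map φ).eval v = 0 := by
      rw [← hnu, eval_map_algebraMap, map_mul, g1, mul_zero]
    have e2 : (W.map φ).eval v = 0 := by
      rw [← hde, eval_map_algebraMap, map_mul, g2, mul_zero]
    rw [hU, Polynomial.map_add, Polynomial.map_mul, Polynomial.map_mul, hm_map, hm_map, map_C,
      map_C, eval_add, eval_mul, eval_mul, eval_C, eval_C, hm_ev, hm_ev] at e1
    rw [hW, Polynomial.map_add, Polynomial.map_mul, Polynomial.map_mul, hm_map, hm_map, map_C,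
      map_C, eval_add, eval_mul, eval_mul, eval_C, eval_C, hm_ev, hm_ev] at e2
    have hd' : φ a * φ e - φ b * φ c ≠ 0 := by
      rw [← map_mul, ← map_mul, ← map_sub]
      intro h
      exact hdet0 (hinj (h.trans (map_zero φ).symm))
    set p1 := Fh D (P.map φ) ((A.map φ).eval v) ((B.map φ).eval v) with hp1
    set r1 := Fh D (R.map φ) ((A.map φ).eval v) ((B.map φ).eval v) with hr1
    have hp : p1 = 0 := by
      have : (φ a * φ e - φ b * φ c) * p1 = 0 := by linear_combination φ e * e1 - φ b * e2
      exact (mul_eq_zero.1 this).resolve_left hd'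
    have hr : r1 = 0 := by
      have : (φ a * φ e - φ b * φ c) * r1 = 0 := by linear_combination φ a * e2 - φ c * e1
      exact (mul_eq_zero.1 this).resolve_left hd'
    refine no_zero (D := D) (by omega) (hc.map (mapRingHom φ)) ?_ _ _ ?_ hp hr
    · rw [coe_mapRingHom, natDegree_map, natDegree_map]; exact hmax
    · by_contra hcon
      push Not at hcon
      obtain ⟨k1, k2⟩ := hcon
      have hAv : (A.map φ).eval v = φ e * v + -φ b := by simp [hA]
      have hBv : (B.map φ).eval v = -φ c * v + φ a := by simp [hB]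
      rw [hAv] at k1
      rw [hBv] at k2
      apply hd'
      linear_combination φ e * k2 + φ c * k1
  · refine ⟨a, b, c, e, hdet0, (a * e - b * c) ^ D / l, div_ne_zero (pow_ne_zero _ hdet0) hl0, ?_, ?_⟩
    · change hm D (nu D κ) _ _ = _
      have hadd : ∀ F G N M : K[X], hm D (F + G) N M = hm D F N M + hm D G N M := by
        intro F G N M
        rw [hm, hm, hm, ← Finset.sum_add_distrib]
        refine Finset.sum_congr rfl fun i _ => ?_
        rw [coeff_add, C_add]; ring
      rw [hnu', hm_C_mul, hU, hadd, hm_C_mul, hm_C_mul, hA, hB, comp_inv D P hP a b c e hdet0,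
        comp_inv D R hR a b c e hdet0, div_eq_mul_inv]
      generalize l⁻¹ = li
      generalize (a * e - b * c) ^ D = dd
      simp only [C_mul]
      ring
    · change hm D (de D κ) _ _ = _
      have hadd : ∀ F G N M : K[X], hm D (F + G) N M = hm D F N M + hm D G N M := by
        intro F G N M
        rw [hm, hm, hm, ← Finset.sum_add_distrib]
        refine Finset.sum_congr rfl fun i _ => ?_
        rw [coeff_add, C_add]; ring
      rw [hde', hm_C_mul, hW, hadd, hm_C_mul, hm_C_mul, hA, hB, comp_inv D P hP a b c e hdet0,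
        comp_inv D R hR a b c e hdet0, div_eq_mul_inv]
      generalize l⁻¹ = li
      generalize (a * e - b * c) ^ D = dd
      simp only [C_mul]
      ring

end

end Pool.Agent.X319.AL
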