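import Pool.Agent.X319.GN.AEXT
import Pool.Agent.X319.GN.RED
import Pool.Agent.X60.GN.Spec

/-!
# `S_SP`: specialisation of the algebraic relations
-/

set_option autoImplicit false

namespace Pool.Agent.X319.AL

open Finset Polynomial
open Pool.Agent.X328.GN (Ix nu de wrA)
open Pool.Agent.X328.FP (vl)
open Pool.Agent.X263.AL
open Pool.Agent.X319.GN (nu_map de_map wrA_map)

universe u v w

noncomputable section

section transfer

variable {B : Type v} [CommRing B] {F : Type w} [Field F] {d : ℕ} (κB : Ix d → B) (θ : B →+* F)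

lemma ev (p : B[X]) (b : B) : (p.map θ).eval (θ b) = θ (p.eval b) := eval_map_apply θ b

lemma ev_de (b : B) : θ ((de d κB).eval b) = (de d (fun i => θ (κB i))).eval (θ b) := by
  rw [← de_map, ev]

lemma ev_nu (b : B) : θ ((nu d κB).eval b) = (nu d (fun i => θ (κB i))).eval (θ b) := by
  rw [← nu_map, ev]

lemma step1 {b c : B} (h : (de d κB).eval b * c = 1) :
    (de d (fun i => θ (κB i))).eval (θ b) ≠ 0 ∧
    vl (nu d fun i => θ (κB i)) (de d fun i => θ (κB i)) (θ b) = θ ((nu d κB).eval b * c) ∧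
    (wrA (nu d fun i => θ (κB i)) (de d fun i => θ (κB i))).eval (θ b) /
      (de d fun i => θ (κB i)).eval (θ b) ^ 2 = θ ((wrA (nu d κB) (de d κB)).eval b * c ^ 2) := by
  have h1 : (de d (fun i => θ (κB i))).eval (θ b) * θ c = 1 := by
    rw [← de_map, ev, ← map_mul, h, map_one]
  have h2 : θ c = ((de d (fun i => θ (κB i))).eval (θ b))⁻¹ := eq_inv_of_mul_eq_one_right h1
  refine ⟨left_ne_zero_of_mul_eq_one h1, ?_, ?_⟩
  · rw [vl, map_mul, h2, ← ev, nu_map, div_eq_mul_inv]
  · rw [map_mul, map_pow, h2, ← ev, wrA_map, nu_map, de_map, div_eq_mul_inv, inv_pow]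

lemma orbit {n : ℕ} (b c : ℕ → B) (h1 : ∀ m < n, (de d κB).eval (b m) * c m = 1)
    (h2 : ∀ m < n, b (m + 1) = (nu d κB).eval (b m) * c m) : ∀ m ≤ n,
    (vl (nu d fun i => θ (κB i)) (de d fun i => θ (κB i)))^[m] (θ (b 0)) = θ (b m) := by
  intro m
  induction m with
  | zero => intro _; rfl
  | succ m ih =>
    intro hm
    rw [Function.iterate_succ_apply', ih (by omega), (step1 κB θ (h1 m (by omega))).2.1,
      h2 m (by omega)]

lemma orbit_per {n : ℕ} (b c : ℕ → B) (h1 : ∀ m < n, (de d κB).eval (b m) * c m = 1)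
    (h2 : ∀ m < n, b (m + 1) = (nu d κB).eval (b m) * c m) (hn : b n = b 0) :
    Per d (fun i => θ (κB i)) n (θ (b 0)) ∧ mu d (fun i => θ (κB i)) n (θ (b 0)) =
      θ (∏ m ∈ range n, (wrA (nu d κB) (de d κB)).eval (b m) * c m ^ 2) := by
  have ho := orbit κB θ b c h1 h2
  refine ⟨⟨?_, ?_⟩, ?_⟩
  · intro m hm
    rw [ho m hm.le]
    exact (step1 κB θ (h1 m hm)).1
  · rw [ho n le_rfl, hn]
  · rw [mu, map_prod]
    refine Finset.prod_congr rfl fun m hm => ?_
    have hm' := Finset.mem_range.1 hm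
    rw [ho m hm'.le]
    exact (step1 κB θ (h1 m hm')).2.2

end transfer

theorem t_SP : S_SP.{u} := by
  classical
  intro d hd P hP Ω _ _ _ _ hinj halg hrig
  let κ' : Ix d → Ω := fun i => algebraMap (MvPolynomial (Ix d) ℚ ⧸ P) Ω
    (Ideal.Quotient.mk P (MvPolynomial.X i))
  -- relations
  have hrange : Set.range (Subtype.val : (mults d κ') → Ω) = mults d κ' := Subtype.range_coe
  have hrel : ∀ i, ∃ (M : ℕ) (G : ℕ → MvPolynomial (mults d κ') ℚ),
      (∃ m ≤ M, MvPolynomial.aeval (Subtype.val : (mults d κ') → Ω) (G m) ≠ 0) ∧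
      ∑ m ∈ range (M + 1),
        MvPolynomial.aeval (Subtype.val : (mults d κ') → Ω) (G m) * κ' i ^ m = 0 :=
    fun i => Pool.Agent.X60.GN.alg_rel _ _ (by rw [hrange]; exact hrig i)
  choose M G0 hne0 hrel0 using hrel
  choose mi hmi hne0' using hne0
  -- the finite set of variables
  let V : Finset (mults d κ') := Finset.univ.biUnion fun i =>
    (range (M i + 1)).biUnion fun m => (G0 i m).vars
  let e := V.equivFin
  let f : Fin V.card → (mults d κ') := fun j => (e.symm j).1
  have hf : Function.Injective f := fun a b hab => e.symm.injective (Subtype.ext hab)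
  have hq : ∀ i m, ∃ q : MvPolynomial (Fin V.card) ℚ,
      (m ≤ M i → MvPolynomial.rename f q = G0 i m) ∧ (M i < m → q = 0) := by
    intro i m
    by_cases hm : m ≤ M i
    · obtain ⟨q, hq⟩ := MvPolynomial.exists_rename_eq_of_vars_subset_range (G0 i m) f hf (by
        intro y hy
        have hyV : y ∈ V := by
          refine Finset.mem_biUnion.2 ⟨i, Finset.mem_univ _, ?_⟩
          refine Finset.mem_biUnion.2 ⟨m, Finset.mem_range.2 (by omega), ?_⟩
          exact hy
        refine ⟨e ⟨y, hyV⟩, ?_⟩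
        simp only [f, Equiv.symm_apply_apply])
      exact ⟨q, fun _ => hq, fun h => absurd h (by omega)⟩
    · exact ⟨0, fun h => absurd h hm, fun _ => rfl⟩
  choose G hG1 hG2 using hq
  have hval0 : ∀ i m, m ≤ M i → MvPolynomial.aeval (fun j => (f j : Ω)) (G i m) =
      MvPolynomial.aeval (Subtype.val : (mults d κ') → Ω) (G0 i m) := by
    intro i m hm
    rw [← hG1 i m hm, MvPolynomial.aeval_rename]
    rfl
  -- the cycles
  have hcyc : ∀ j : Fin V.card, ∃ n x, 1 ≤ n ∧ Per d κ' n x ∧ (f j : Ω) = mu d κ' n x :=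
    fun j => (f j).2
  choose len x hlen hper hmu using hcyc
  let y : Fin V.card → ℕ → Ω := fun j m => (vl (nu d κ') (de d κ'))^[m] (x j)
  let s : Finset Ω := Finset.univ.biUnion fun j =>
    (range (len j)).image (y j) ∪ (range (len j)).image (fun m => ((de d κ').eval (y j m))⁻¹)
  have hmod : ∀ j m, y j m = y j (m % len j) := by
    intro j m
    have h : Function.IsPeriodicPt (vl (nu d κ') (de d κ')) (len j) (x j) := (hper j).2
    exact (h.iterate_mod_apply m).symm
  have hlt : ∀ j m, m % len j < len j := fun j m => Nat.mod_lt _ (hlen j)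
  have hyB : ∀ j m, y j m ∈ Algebra.adjoin (MvPolynomial (Ix d) ℚ ⧸ P) (s : Set Ω) := by
    intro j m
    rw [hmod]
    refine Algebra.subset_adjoin ?_
    refine Finset.mem_coe.2 (Finset.mem_biUnion.2 ⟨j, Finset.mem_univ _, ?_⟩)
    exact Finset.mem_union_left _ (Finset.mem_image_of_mem _ (Finset.mem_range.2 (hlt j m)))
  have hcB : ∀ j m, ((de d κ').eval (y j m))⁻¹ ∈
      Algebra.adjoin (MvPolynomial (Ix d) ℚ ⧸ P) (s : Set Ω) := by
    intro j m
    rw [hmod]
    refine Algebra.subset_adjoin ?_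
    refine Finset.mem_coe.2 (Finset.mem_biUnion.2 ⟨j, Finset.mem_univ _, ?_⟩)
    exact Finset.mem_union_right _ (Finset.mem_image_of_mem
      (fun m => ((de d κ').eval (y j m))⁻¹) (Finset.mem_range.2 (hlt j m)))
  have hde : ∀ j m, (de d κ').eval (y j m) ≠ 0 := by
    intro j m
    rw [hmod]
    exact (hper j).1 _ (hlt j m)
  let B := Algebra.adjoin (MvPolynomial (Ix d) ℚ ⧸ P) (s : Set Ω)
  let ιB : B →+* Ω := algebraMap B Ω
  have hιinj : Function.Injective ιB := Subtype.val_injective
  let b : Fin V.card → ℕ → B := fun j m => ⟨y j m, hyB j m⟩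
  let c : Fin V.card → ℕ → B := fun j m => ⟨((de d κ').eval (y j m))⁻¹, hcB j m⟩
  let κB : Ix d → B := fun i => algebraMap (MvPolynomial (Ix d) ℚ ⧸ P) B
    (Ideal.Quotient.mk P (MvPolynomial.X i))
  have hκ : (fun i => ιB (κB i)) = κ' := rfl
  have h1 : ∀ j m, (de d κB).eval (b j m) * c j m = 1 := by
    intro j m
    apply hιinj
    have h0 : ιB ((de d κB).eval (b j m)) = (de d κ').eval (y j m) := ev_de κB ιB (b j m)
    rw [map_mul, map_one, h0]
    exact mul_inv_cancel₀ (hde j m)
  have h2 : ∀ j m, b j (m + 1) = (nu d κB).eval (b j m) * c j m := by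
    intro j m
    apply hιinj
    have h0 : ιB ((nu d κB).eval (b j m)) = (nu d κ').eval (y j m) := ev_nu κB ιB (b j m)
    rw [map_mul, h0]
    change y j (m + 1) = (nu d κ').eval (y j m) * ((de d κ').eval (y j m))⁻¹
    rw [← div_eq_mul_inv]
    exact Function.iterate_succ_apply' _ _ _
  have h3 : ∀ j, b j (len j) = b j 0 := fun j => Subtype.ext (hper j).2
  let mB : Fin V.card → B := fun j =>
    ∏ m ∈ range (len j), (wrA (nu d κB) (de d κB)).eval (b j m) * c j m ^ 2
  have hmB : ∀ j, ιB (mB j) = f j := by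
    intro j
    rw [hmu j]
    exact (orbit_per κB ιB (b j) (c j) (fun m _ => h1 j m) (fun m _ => h2 j m) (h3 j)).2.symm
  -- values
  let ρ : ℚ →+* B := (algebraMap (MvPolynomial (Ix d) ℚ ⧸ P) B).comp
    (algebraMap ℚ (MvPolynomial (Ix d) ℚ ⧸ P))
  have hval : ∀ p : MvPolynomial (Fin V.card) ℚ, ιB (p.eval₂ ρ mB) =
      MvPolynomial.aeval (fun j => (f j : Ω)) p := by
    intro p
    rw [MvPolynomial.eval₂_comp_left ιB ρ mB p, MvPolynomial.aeval_def]
    congr 1
    · exact Subsingleton.elim _ _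
    · exact funext hmB
  let vv : B := ∏ i, (G i (mi i)).eval₂ ρ mB
  have hvv : ιB vv ≠ 0 := by
    change ιB (∏ i, (G i (mi i)).eval₂ ρ mB) ≠ 0
    rw [map_prod]
    refine Finset.prod_ne_zero_iff.2 fun i _ => ?_
    rw [hval, hval0 i _ (hmi i)]
    exact hne0' i
  obtain ⟨D0, hD0, hext⟩ := Pool.Agent.X319.GN.t_EXT.{u} (MvPolynomial (Ix d) ℚ ⧸ P) Ω hinj halg s
    (ιB vv) hvv vv.2
  obtain ⟨D, rfl⟩ := Ideal.Quotient.mk_surjective D0
  let N : ℕ := V.card + ∑ j, len j + ∑ i, M i +
    ∑ i, ∑ m ∈ range (M i + 1), (G i m).totalDegree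
  have hNM : ∀ i, M i ≤ N := by
    intro i
    have : M i ≤ ∑ i, M i := Finset.single_le_sum (f := M) (fun _ _ => Nat.zero_le _)
      (Finset.mem_univ i)
    change M i ≤ V.card + ∑ j, len j + ∑ i, M i + _
    omega
  refine ⟨D, N, fun h => hD0 (Ideal.Quotient.eq_zero_iff_mem.2 h), ?_⟩
  intro K _ _ _ κ hPκ hD
  let φ : (MvPolynomial (Ix d) ℚ ⧸ P) →+* K := Ideal.Quotient.lift P
    (MvPolynomial.aeval κ : MvPolynomial (Ix d) ℚ →ₐ[ℚ] K).toRingHom hPκ
  obtain ⟨Φ, hΦ1, hΦ2⟩ := hext K φ hD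
  have hκK : (fun i => Φ (κB i)) = κ := by
    funext i
    rw [hΦ1]
    exact MvPolynomial.aeval_X κ i
  have hop := fun j => orbit_per κB Φ (b j) (c j) (fun m _ => h1 j m) (fun m _ => h2 j m) (h3 j)
  rw [hκK] at hop
  have hvalK : ∀ p : MvPolynomial (Fin V.card) ℚ,
      MvPolynomial.aeval (fun j => mu d κ (len j) (Φ (b j 0))) p = Φ (p.eval₂ ρ mB) := by
    intro p
    rw [MvPolynomial.eval₂_comp_left Φ ρ mB p, MvPolynomial.aeval_def]
    congr 1
    · exact Subsingleton.elim _ _
    · funext j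
      exact (hop j).2
  refine ⟨V.card, len, fun j => Φ (b j 0), G, ?_, ?_, ?_, ?_⟩
  · change V.card ≤ V.card + ∑ j, len j + ∑ i, M i + _
    omega
  · intro j
    refine ⟨hlen j, ?_, (hop j).1⟩
    have : len j ≤ ∑ j, len j := Finset.single_le_sum (f := len) (fun _ _ => Nat.zero_le _)
      (Finset.mem_univ j)
    change len j ≤ V.card + ∑ j, len j + ∑ i, M i + _
    omega
  · intro i m
    by_cases hm : m ≤ M i
    · have h4 : (G i m).totalDegree ≤ ∑ m ∈ range (M i + 1), (G i m).totalDegree :=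
        Finset.single_le_sum (f := fun m => (G i m).totalDegree) (fun _ _ => Nat.zero_le _)
          (Finset.mem_range.2 (by omega))
      have h5 : ∑ m ∈ range (M i + 1), (G i m).totalDegree ≤
          ∑ i, ∑ m ∈ range (M i + 1), (G i m).totalDegree :=
        Finset.single_le_sum (f := fun i => ∑ m ∈ range (M i + 1), (G i m).totalDegree)
          (fun _ _ => Nat.zero_le _) (Finset.mem_univ i)
      change (G i m).totalDegree ≤ V.card + ∑ j, len j + ∑ i, M i +
        ∑ i, ∑ m ∈ range (M i + 1), (G i m).totalDegree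
      omega
    · rw [hG2 i m (by omega), MvPolynomial.totalDegree_zero]
      exact Nat.zero_le _
  · intro i
    constructor
    · refine ⟨mi i, (hmi i).trans (hNM i), ?_⟩
      rw [hvalK]
      intro h0
      refine hΦ2 vv rfl ?_
      change Φ (∏ i, (G i (mi i)).eval₂ ρ mB) = 0
      rw [map_prod]
      exact Finset.prod_eq_zero (Finset.mem_univ i) h0
    · have h6 : ∑ m ∈ range (N + 1), (G i m).eval₂ ρ mB * κB i ^ m = 0 := by
        apply hιinj
        rw [map_sum, map_zero]
        have h7 : ∑ m ∈ range (M i + 1), ιB ((G i m).eval₂ ρ mB * κB i ^ m) =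
            ∑ m ∈ range (N + 1), ιB ((G i m).eval₂ ρ mB * κB i ^ m) := by
          refine Finset.sum_subset ?_ ?_
          · intro m hm
            have h8 := Finset.mem_range.1 hm
            have h9 := hNM i
            exact Finset.mem_range.2 (by omega)
          · intro m _ hm
            rw [Finset.mem_range, not_lt] at hm
            rw [hG2 i m (by omega), MvPolynomial.eval₂_zero, zero_mul, map_zero]
        rw [← h7, ← hrel0 i]
        refine Finset.sum_congr rfl fun m hm => ?_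
        have hm' := Finset.mem_range.1 hm
        rw [map_mul, hval, map_pow, hval0 i m (by omega)]
        rfl
      have h10 := congrArg Φ h6
      rw [map_sum, map_zero] at h10
      rw [← h10]
      refine Finset.sum_congr rfl fun m _ => ?_
      rw [hvalK, map_mul, map_pow]
      have : κ i = Φ (κB i) := (congrFun hκK i).symm
      rw [this]

end

end Pool.Agent.X319.AL
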