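import Pool.Agent.X328.GN.Stm

/-!
# Local multiplicities of the fixed points of the iterates
-/

set_option autoImplicit false

namespace Pool.Agent.X319.AL

open Finset Polynomial
open Pool.Agent.X328.GN (hm it)

universe u

noncomputable section

variable {K : Type u} [Field K]

/-- first order expansion -/
lemma taylor (d : ℕ) (hd : 1 ≤ d) (F : K[X]) (hF : F.natDegree ≤ d) (Q δ : K[X]) :
    ∃ H : K[X], hm d F (X * Q + δ) Q = Q ^ d * F + δ * Q ^ (d - 1) * derivative F + δ ^ 2 * H := by
  have hFs : F = ∑ i ∈ range (d + 1), C (F.coeff i) * X ^ i :=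
    F.as_sum_range_C_mul_X_pow' (by omega)
  have hDs : derivative F = ∑ i ∈ range (d + 1), C (F.coeff i) * ((i : K[X]) * X ^ (i - 1)) := by
    conv_lhs => rw [hFs]
    rw [derivative_sum]
    refine Finset.sum_congr rfl fun i _ => ?_
    rw [derivative_C_mul, derivative_X_pow]
    simp
  refine ⟨∑ i ∈ range (d + 1), C (F.coeff i) * (powAddExpansion (X * Q) δ i).1 * Q ^ (d - i), ?_⟩
  have hA : Q ^ d * F = ∑ i ∈ range (d + 1), Q ^ d * (C (F.coeff i) * X ^ i) := by
    conv_lhs => rw [hFs]
    rw [Finset.mul_sum]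
  have hB : δ * Q ^ (d - 1) * derivative F = ∑ i ∈ range (d + 1),
      δ * Q ^ (d - 1) * (C (F.coeff i) * ((i : K[X]) * X ^ (i - 1))) := by
    conv_lhs => rw [hDs]
    rw [Finset.mul_sum]
  rw [hA, hB, hm, Finset.mul_sum, ← Finset.sum_add_distrib,
    ← Finset.sum_add_distrib]
  refine Finset.sum_congr rfl fun i hi => ?_
  have hi' : i ≤ d := by have := Finset.mem_range.1 hi; omega
  have hk := (powAddExpansion (X * Q) δ i).2
  generalize (powAddExpansion (X * Q) δ i).1 = k at *
  rw [hk]
  have h1 : Q ^ d = Q ^ i * Q ^ (d - i) := by rw [← pow_add, Nat.add_sub_cancel' hi']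
  rcases Nat.eq_zero_or_pos i with h0 | h0
  · subst h0
    simp
    ring
  · have h2 : Q ^ (d - 1) = Q ^ (i - 1) * Q ^ (d - i) := by
      rw [← pow_add]; congr 1; omega
    rw [h1, h2, mul_pow, mul_pow]
    ring

variable {d : ℕ} {u w : K[X]}

/-- the recursion for `P_n - X Q_n` -/
lemma rec_step (hd : 1 ≤ d) (hu : u.natDegree ≤ d) (hw : w.natDegree ≤ d) (n : ℕ) :
    ∃ H : K[X], (it d u w (n + 1)).1 - X * (it d u w (n + 1)).2 =
      (it d u w n).2 ^ d * (u - X * w) +
        ((it d u w n).1 - X * (it d u w n).2) * (it d u w n).2 ^ (d - 1) *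
          (derivative u - X * derivative w) +
        ((it d u w n).1 - X * (it d u w n).2) ^ 2 * H := by
  set P := (it d u w n).1 with hP
  set Q := (it d u w n).2 with hQ
  obtain ⟨H1, h1⟩ := taylor d hd u hu Q (P - X * Q)
  obtain ⟨H2, h2⟩ := taylor d hd w hw Q (P - X * Q)
  rw [add_sub_cancel] at h1 h2
  refine ⟨H1 - X * H2, ?_⟩
  have e1 : (it d u w (n + 1)).1 = hm d u P Q := rfl
  have e2 : (it d u w (n + 1)).2 = hm d w P Q := rfl
  rw [e1, e2, h1, h2]
  ring

lemma it_eval (hu : u.natDegree ≤ d) (hw : w.natDegree ≤ d) {x : K} (hx : u.eval x = x * w.eval x)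
    (hwx : w.eval x ≠ 0) (n : ℕ) : (it d u w n).1.eval x = x * (it d u w n).2.eval x ∧
      (it d u w n).2.eval x ≠ 0 ∧
      (it d u w (n + 1)).2.eval x = (it d u w n).2.eval x ^ d * w.eval x := by
  have hgen : ∀ F : K[X], F.natDegree ≤ d → ∀ P Q : K[X], P.eval x = x * Q.eval x →
      (hm d F P Q).eval x = Q.eval x ^ d * F.eval x := by
    intro F hF P Q hPQ
    rw [eval_eq_sum_range' (p := F) (n := d + 1) (by omega), hm, eval_finsetSum, Finset.mul_sum]
    refine Finset.sum_congr rfl fun i hi => ?_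
    have hi' : i ≤ d := by have := Finset.mem_range.1 hi; omega
    simp only [eval_mul, eval_C, eval_pow, hPQ]
    have h1 : Q.eval x ^ d = Q.eval x ^ i * Q.eval x ^ (d - i) := by
      rw [← pow_add, Nat.add_sub_cancel' hi']
    rw [h1, mul_pow]; ring
  induction n with
  | zero =>
    refine ⟨by simp [it], by simp [it], ?_⟩
    have := hgen w hw X 1 (by simp)
    simpa [it] using this
  | succ n ih =>
    obtain ⟨i1, i2, i3⟩ := ih
    have e1 : (it d u w (n + 1)).1.eval x = (it d u w n).2.eval x ^ d * u.eval x := hgen u hu _ _ i1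
    have j1 : (it d u w (n + 1)).1.eval x = x * (it d u w (n + 1)).2.eval x := by
      rw [e1, i3, hx]; ring
    have j2 : (it d u w (n + 1)).2.eval x ≠ 0 := by
      rw [i3]; exact mul_ne_zero (pow_ne_zero _ i2) hwx
    exact ⟨j1, j2, hgen w hw _ _ j1⟩

/-- derivative at the fixed point -/
lemma deriv_it (hd : 1 ≤ d) (hu : u.natDegree ≤ d) (hw : w.natDegree ≤ d) {x : K}
    (hx : u.eval x = x * w.eval x) (hwx : w.eval x ≠ 0) {c : K}
    (hc : (derivative u).eval x - x * (derivative w).eval x = c * w.eval x) (n : ℕ) :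
    (derivative ((it d u w n).1 - X * (it d u w n).2)).eval x =
      (c ^ n - 1) * (it d u w n).2.eval x := by
  induction n with
  | zero => simp [it]
  | succ n ih =>
    obtain ⟨H, hH⟩ := rec_step (u := u) (w := w) hd hu hw n
    obtain ⟨i1, i2, i3⟩ := it_eval hu hw hx hwx n
    have hδ : ((it d u w n).1 - X * (it d u w n).2).eval x = 0 := by
      rw [eval_sub, eval_mul, eval_X, i1, sub_self]
    have hF : (u - X * w).eval x = 0 := by rw [eval_sub, eval_mul, eval_X, hx, sub_self]
    have hF' : (derivative (u - X * w)).eval x = (c - 1) * w.eval x := by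
      simp only [derivative_sub, derivative_mul, derivative_X, one_mul, eval_sub, eval_add, eval_mul,
        eval_X]
      linear_combination hc
    rw [hH, i3]
    generalize (it d u w n).2 = Q at *
    generalize (it d u w n).1 - X * Q = δ at *
    generalize u - X * w = F at *
    have hQd : Q.eval x ^ d = Q.eval x ^ (d - 1) * Q.eval x := by
      rw [← pow_succ, Nat.sub_add_cancel hd]
    simp only [derivative_add, derivative_mul, derivative_pow, eval_add, eval_mul, eval_pow, hδ, hF,
      hF', ih, mul_zero, zero_mul, add_zero, zero_add, eval_sub, eval_X]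
    rw [hQd]
    norm_num
    linear_combination (((c ^ n - 1) * Q.eval x) * Q.eval x ^ (d - 1)) * hc

/-- **L2**: simple fixed points -/
theorem loc_ne (hd : 1 ≤ d) (hu : u.natDegree ≤ d) (hw : w.natDegree ≤ d) {x : K}
    (hx : u.eval x = x * w.eval x) (hwx : w.eval x ≠ 0) {c : K}
    (hc : (derivative u).eval x - x * (derivative w).eval x = c * w.eval x) {n : ℕ}
    (hn : c ^ n ≠ 1) : rootMultiplicity x ((it d u w n).1 - X * (it d u w n).2) = 1 := by
  obtain ⟨i1, i2, i3⟩ := it_eval hu hw hx hwx n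
  have h1 := deriv_it hd hu hw hx hwx hc n
  have h2 : (derivative ((it d u w n).1 - X * (it d u w n).2)).eval x ≠ 0 := by
    rw [h1]; exact mul_ne_zero (sub_ne_zero.2 hn) i2
  have h0 : (it d u w n).1 - X * (it d u w n).2 ≠ 0 := by
    intro h; rw [h] at h2; simp at h2
  have hr : ((it d u w n).1 - X * (it d u w n).2).IsRoot x := by
    rw [IsRoot.def, eval_sub, eval_mul, eval_X, i1, sub_self]
  have hge : 1 ≤ rootMultiplicity x ((it d u w n).1 - X * (it d u w n).2) :=
    (rootMultiplicity_pos h0).2 hr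
  by_contra hne
  have hgt : 1 < rootMultiplicity x ((it d u w n).1 - X * (it d u w n).2) := by omega
  exact h2 ((one_lt_rootMultiplicity_iff_isRoot h0).1 hgt).2

/-- **L1**: multiplier one -/
theorem loc_one [CharZero K] (hd : 1 ≤ d) (hu : u.natDegree ≤ d) (hw : w.natDegree ≤ d) {x : K}
    (hx : u.eval x = x * w.eval x) (hwx : w.eval x ≠ 0)
    (hc : (derivative u).eval x - x * (derivative w).eval x = w.eval x)
    (hF : u - X * w ≠ 0) {n : ℕ} (hn : 1 ≤ n) :
    rootMultiplicity x ((it d u w n).1 - X * (it d u w n).2) = rootMultiplicity x (u - X * w) := by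
  set m := rootMultiplicity x (u - X * w) with hm
  obtain ⟨g, hg, hgx⟩ := exists_eq_pow_rootMultiplicity_mul_and_not_dvd (u - X * w) hF x
  rw [← hm] at hg
  have hgx' : g.eval x ≠ 0 := by
    intro h; exact hgx (dvd_iff_isRoot.2 h)
  have hm1 : 1 ≤ m := by
    refine (rootMultiplicity_pos hF).2 ?_
    rw [IsRoot.def, eval_sub, eval_mul, eval_X, hx, sub_self]
  have key : ∀ n, ∃ a : K[X], (it d u w n).1 - X * (it d u w n).2 = (X - C x) ^ m * a ∧
      a.eval x * w.eval x = n * g.eval x * (it d u w n).2.eval x := by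
    intro n
    induction n with
    | zero => exact ⟨0, by simp [it], by simp⟩
    | succ n ih =>
      obtain ⟨a, ha, hax⟩ := ih
      obtain ⟨H, hH⟩ := rec_step (u := u) (w := w) hd hu hw n
      obtain ⟨i1, i2, i3⟩ := it_eval hu hw hx hwx n
      refine ⟨(it d u w n).2 ^ d * g + a * (it d u w n).2 ^ (d - 1) *
        (derivative u - X * derivative w) + (X - C x) ^ m * a ^ 2 * H, ?_, ?_⟩
      · rw [hH, ha, hg]; ring
      · have hQd : (it d u w n).2.eval x ^ d =
            (it d u w n).2.eval x ^ (d - 1) * (it d u w n).2.eval x := by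
          rw [← pow_succ, Nat.sub_add_cancel hd]
        have hz : ((X - C x : K[X]) ^ m).eval x = 0 := by
          rw [eval_pow, eval_sub, eval_X, eval_C, sub_self, zero_pow (by omega)]
        rw [i3]
        simp only [eval_add, eval_mul, hz, zero_mul, add_zero, eval_pow, eval_sub, eval_X, hc]
        rw [hQd]
        push_cast
        linear_combination ((it d u w n).2.eval x ^ (d - 1) * w.eval x) * hax
  obtain ⟨a, ha, hax⟩ := key n
  obtain ⟨i1, i2, i3⟩ := it_eval hu hw hx hwx n
  have hax' : a.eval x ≠ 0 := by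
    intro h
    rw [h, zero_mul] at hax
    have hn0 : (n : K) ≠ 0 := by exact_mod_cast (by omega : n ≠ 0)
    exact mul_ne_zero (mul_ne_zero hn0 hgx') i2 hax.symm
  have ha0 : a ≠ 0 := by rintro rfl; simp at hax'
  rw [ha, rootMultiplicity_mul (mul_ne_zero (pow_ne_zero _ (X_sub_C_ne_zero x)) ha0),
    rootMultiplicity_X_sub_C_pow, rootMultiplicity_eq_zero (p := a) (x := x) (by
      rw [IsRoot.def]; exact hax'), add_zero]

end

end Pool.Agent.X319.AL
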